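import Mathlib
import Pool.Agent.Q60.D3H.StmC

/-!
# Project D3H, jobs C1 (orbits with at most six elements) and C2 (cyclic relations)
-/

set_option linter.unusedSectionVars false
set_option linter.unusedVariables false

namespace Pool.Agent.Q210.D3H

open Module Pool.Agent.W547.LD Pool.Agent.W547.LD.Comb Pool.Agent.Q60.D3G Pool.Agent.Q60.D3H

/-- JOB C1 FSM. -/
theorem fsm : S_fsm := by
  classical
  intro G _ _ c hc Q hQ
  refine ⟨hQ.stable, hQ.trans, hQ.compl, hQ.half, ?_, ?_⟩
  · intro M _ _ hM F hF
    refine Submodule.span_induction (p := fun F _ => ∑ h : M, rtr h.1 F ∈ QQ c) ?_ ?_ ?_ ?_ hF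
    · rintro _ ⟨S, hS, rfl⟩
      exact sum_mem_QQ hc hQ.stable hQ.trans hQ.compl hQ.half hQ.card M (fun h => hM h) hS
    · simp only [map_zero, Finset.sum_const_zero]
      exact Submodule.zero_mem _
    · intro x y _ _ hx hy
      simp only [map_add, Finset.sum_add_distrib]
      exact Submodule.add_mem _ hx hy
    · intro a x _ hx
      simp only [map_smul, ← Finset.smul_sum]
      exact Submodule.smul_mem _ _ hx
  · intro a ha ha1 hF x hx
    obtain ⟨N, g⟩ := exists_good hc hQ.stable hQ.trans hQ.compl hQ.half hQ.card ha ha1 hF hx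
    refine ⟨N, g.imag, g.half, g.stb_le, g.pos, ?_, ?_, g.FF_eq⟩
    · rcases g.card with ⟨h, -⟩ | h
      · exact Or.inl h
      · exact Or.inr (Or.inl ⟨h, g.abs⟩)
    · intro h
      have h1 := g.abs
      rw [h, abs_zero] at h1
      exact zero_ne_one h1

open Polynomial in
/-- JOB C2 CYC. -/
theorem cyc : S_cyc := by
  classical
  intro p _ V _ _ T t a hT ha hsum
  have hp : p.Prime := Fact.out
  have hpow : ∀ n : ℕ, (T ^ n) (t 0) = t n := by
    intro n
    induction n with
    | zero => simp
    | succ n ih =>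
      rw [pow_succ', Module.End.mul_apply, ih, hT]
      push_cast
      rfl
  obtain ⟨A, hA⟩ : ∃ A : ℚ[X], A = ∑ i : ZMod p, C (a i) * X ^ i.val := ⟨_, rfl⟩
  have hval : ∀ i : ZMod p, (T ^ i.val) (t 0) = t i := by
    intro i
    rw [hpow, ZMod.natCast_zmod_val]
  have hA0 : aeval T A (t 0) = 0 := by
    rw [hA, map_sum, LinearMap.sum_apply, ← hsum]
    refine Finset.sum_congr rfl fun i _ => ?_
    rw [map_mul, aeval_C, map_pow, aeval_X, Module.End.mul_apply, hval]
    rfl
  have hcoeff : ∀ i : ZMod p, A.coeff i.val = a i := by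
    intro i
    rw [hA, finsetSum_coeff, Finset.sum_eq_single i]
    · simp
    · intro k _ hk
      rw [coeff_C_mul, coeff_X_pow, if_neg, mul_zero]
      exact fun h => hk (ZMod.val_injective p h.symm)
    · intro h
      exact absurd (Finset.mem_univ i) h
  have hAne : A ≠ 0 := by
    intro h
    apply ha
    funext i
    rw [← hcoeff, h, coeff_zero]
    rfl
  have hdeg : A.degree < p := by
    rw [hA]
    refine (degree_sum_le _ _).trans_lt ?_
    rw [Finset.sup_lt_iff (by exact_mod_cast WithBot.bot_lt_coe p)]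
    intro i _
    refine (degree_C_mul_X_pow_le _ _).trans_lt ?_
    exact_mod_cast ZMod.val_lt i
  have hirr : Irreducible (cyclotomic p ℚ) := cyclotomic.irreducible_rat hp.pos
  by_cases hdvd : cyclotomic p ℚ ∣ A
  · right
    obtain ⟨B, hB⟩ := hdvd
    have hB0 : B ≠ 0 := by
      rintro rfl
      rw [mul_zero] at hB
      exact hAne hB
    have hd1 : A.natDegree = (p - 1) + B.natDegree := by
      rw [hB, natDegree_mul hirr.ne_zero hB0, natDegree_cyclotomic, Nat.totient_prime hp]
    have hd2 : A.natDegree < p := by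
      have := (natDegree_lt_iff_degree_lt hAne).2 hdeg
      exact this
    have hd3 : B.natDegree = 0 := by
      have := hp.two_le
      omega
    obtain ⟨b, hb⟩ := natDegree_eq_zero.1 hd3
    have hb0 : b ≠ 0 := by
      rintro rfl
      rw [C_0] at hb
      exact hB0 hb.symm
    have h1 : aeval T (cyclotomic p ℚ) (t 0) = 0 := by
      rw [hB, ← hb, mul_comm, map_mul, aeval_C, Module.End.mul_apply] at hA0
      have h2 : b • aeval T (cyclotomic p ℚ) (t 0) = 0 := hA0
      exact (smul_eq_zero.1 h2).resolve_left hb0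
    rw [cyclotomic_prime, map_sum, LinearMap.sum_apply] at h1
    rw [← h1]
    symm
    refine Finset.sum_nbij' (fun n => (n : ZMod p)) ZMod.val (fun _ _ => Finset.mem_univ _)
      (fun i _ => Finset.mem_range.2 (ZMod.val_lt i)) (fun n hn => ?_) (fun i _ => ?_)
      (fun n _ => ?_)
    · exact ZMod.val_cast_of_lt (Finset.mem_range.1 hn)
    · exact ZMod.natCast_zmod_val i
    · rw [map_pow, aeval_X, hpow]
  · left
    obtain ⟨u, v, huv⟩ := (hirr.coprime_iff_not_dvd.2 hdvd)
    have h1 : u * (X ^ p - 1) + (v * (X - 1)) * A = X - 1 := by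
      rw [← cyclotomic_prime_mul_X_sub_one]
      linear_combination (X - 1) * huv
    have h2 := congrArg (fun P => aeval T P (t 0)) h1
    simp only [map_add, map_mul, map_sub, map_pow, aeval_X, map_one, LinearMap.add_apply,
      Module.End.mul_apply, LinearMap.sub_apply, Module.End.one_apply] at h2
    rw [hA0, hpow, ZMod.natCast_self, sub_self, map_zero] at h2
    have h3 := hT 0
    rw [zero_add] at h3
    rw [h3] at h2
    simp only [map_zero, add_zero] at h2
    have h4 : (0 : V) = t 1 - t 0 := by simpa using h2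
    exact (sub_eq_zero.1 h4.symm)

end Pool.Agent.Q210.D3H
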