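import Mathlib
import Pool.Agent.Q60.D3H.StmC

/-!
# Project D3H, job C5: orbits with `2 p` elements
-/

set_option linter.unusedSectionVars false
set_option linter.unusedVariables false
set_option linter.unusedSimpArgs false

namespace Pool.Agent.Q210.D3H

open Module Pool.Agent.W547.LD Pool.Agent.W547.LD.Comb Pool.Agent.Q60.D3G Pool.Agent.Q60.D3H

variable {G : Type} [Group G] [Fintype G]

theorem eps_inj {S T : Set G} (h : eps S = eps T) : S = T := by
  ext σ
  rw [← eps_eq_iff]
  exact congrFun h σ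

/-- Coordinates. -/
theorem exists_co {p : ℕ} [NeZero p] {t : ZMod p → G → ℚ} (h : LinearIndependent ℚ t) :
    ∃ co : (G → ℚ) →ₗ[ℚ] (ZMod p → ℚ), ∀ k, co (t k) = Pi.single k 1 := by
  classical
  have hinj := linearIndependent_iff_injective_fintypeLinearCombination.1 h
  obtain ⟨co, hco⟩ := (Fintype.linearCombination ℚ t).exists_leftInverse_of_injective
    (LinearMap.ker_eq_bot.2 hinj)
  refine ⟨co, fun k => ?_⟩
  have h1 := LinearMap.congr_fun hco (Pi.single k 1)
  rw [LinearMap.comp_apply, Fintype.linearCombination_apply_single, one_smul] at h1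
  exact h1

section

variable {c : G} (hc : ∀ g, c * g = g * c) {Q : Set (Set G)} (hst : Stable Q)
  (hcompl : ∀ S ∈ Q, Sᶜ ∈ Q) (hhalf : ∀ S ∈ Q, Half c S)
  {p : ℕ} [hp : Fact p.Prime] (hp5 : 5 ≤ p) {g : G} {S : ZMod p → Set G}
  (hSQ : ∀ i, S i ∈ Q) (hgS : ∀ i, tr g (S i) = S (i + 1))
  (hne : ∀ i k, i ≠ k → S i ≠ S k ∧ S i ≠ (S k)ᶜ)
  (hcov : ∀ T ∈ Q, ∃ i, T = S i ∨ T = (S i)ᶜ)
  {co : (G → ℚ) →ₗ[ℚ] (ZMod p → ℚ)} (hco : ∀ k, co (eps (S k)) = Pi.single k 1)
  (hW : ∀ W : Submodule ℚ (G → ℚ), (∀ F ∈ W, rtr g F ∈ W) →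
      (∀ F ∈ W, F ∈ Submodule.span ℚ (Set.range fun i => eps (S i))) →
      eps (S 0) - eps (S 1) ∈ W ∨ ∀ F ∈ W, ∃ r : ℚ, F = r • ∑ i, eps (S i))

include hcov in
theorem VV_le_span : ∀ F ∈ VV Q, F ∈ Submodule.span ℚ (Set.range fun i => eps (S i)) := by
  intro F hF
  refine Submodule.span_induction (p := fun F _ =>
    F ∈ Submodule.span ℚ (Set.range fun i => eps (S i))) ?_ ?_ ?_ ?_ hF
  · rintro _ ⟨T, hT, rfl⟩
    obtain ⟨i, rfl | rfl⟩ := hcov T hT
    · exact Submodule.subset_span ⟨i, rfl⟩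
    · rw [eps_compl']
      exact Submodule.neg_mem _ (Submodule.subset_span ⟨i, rfl⟩)
  · exact Submodule.zero_mem _
  · intro x y _ _ hx hy
    exact Submodule.add_mem _ hx hy
  · intro a x _ hx
    exact Submodule.smul_mem _ _ hx

include hst hSQ hcov in
theorem signed (h : G) (i : ZMod p) : ∃ k, rtr h (eps (S i)) = eps (S k) ∨
    rtr h (eps (S i)) = -eps (S k) := by
  obtain ⟨k, hk⟩ := hcov _ (hst h _ (hSQ i))
  refine ⟨k, ?_⟩
  rw [rtr_eps]
  rcases hk with hk | hk
  · left
    rw [hk]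
  · right
    rw [hk, eps_compl']

include hhalf hSQ in
theorem sum_odd (σ : G) : (∑ i, eps (S i)) (c * σ) = -(∑ i, eps (S i)) σ := by
  rw [Finset.sum_apply, Finset.sum_apply, ← Finset.sum_neg_distrib]
  refine Finset.sum_congr rfl fun i _ => ?_
  have h1 := hhalf _ (hSQ i) σ
  unfold eps
  by_cases h : σ ∈ S i
  · rw [if_pos h, if_neg (h1.1 h)]
  · rw [if_neg h, if_pos (by tauto), neg_neg]

include hgS in
theorem step_mem (W : Submodule ℚ (G → ℚ)) (hW1 : ∀ F ∈ W, rtr g F ∈ W)
    (h : eps (S 0) - eps (S 1) ∈ W) (i : ZMod p) : eps (S i) - eps (S (i + 1)) ∈ W := by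
  have key : ∀ n : ℕ, eps (S (n : ZMod p)) - eps (S ((n : ZMod p) + 1)) ∈ W := by
    intro n
    induction n with
    | zero => simpa using h
    | succ n ih =>
      have h1 := hW1 _ ih
      rw [map_sub, rtr_eps, rtr_eps, hgS, hgS] at h1
      push_cast
      exact h1
  have h1 := key i.val
  rwa [ZMod.natCast_zmod_val] at h1

theorem zmod_ne {p : ℕ} (hp5 : 5 ≤ p) {n : ℕ} (hn : 0 < n) (hn5 : n < 5) : (n : ZMod p) ≠ 0 := by
  intro h
  rw [ZMod.natCast_eq_zero_iff] at h
  have := Nat.le_of_dvd hn h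
  omega

include hst hp5 hSQ hgS hcov hco in
/-- A fixed difference. -/
theorem fixed_of_diff (h : G)
    (hd : ∀ i, rtr h (eps (S i) - eps (S (i + 1))) = eps (S i) - eps (S (i + 1))) (i : ZMod p) :
    rtr h (eps (S i)) = eps (S i) := by
  classical
  have hone : (1 : ZMod p) ≠ 0 := by
    have := zmod_ne hp5 (n := 1) (by norm_num) (by norm_num)
    simpa using this
  have htwo : (2 : ZMod p) ≠ 0 := by
    have := zmod_ne hp5 (n := 2) (by norm_num) (by norm_num)
    simpa using this
  have hi1 : ∀ i : ZMod p, i ≠ i + 1 := fun i h => hone (by simpa using h.symm)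
  -- the alternative
  have alt : ∀ i, (rtr h (eps (S i)) = eps (S i)) ∨
      (rtr h (eps (S i)) = -eps (S (i + 1)) ∧ rtr h (eps (S (i + 1))) = -eps (S i)) := by
    intro i
    obtain ⟨k, hk⟩ := signed hst hSQ hcov h i
    obtain ⟨l, hl⟩ := signed hst hSQ hcov h (i + 1)
    have h1 := hd i
    rw [map_sub] at h1
    have h2 := congrArg co h1
    have e1 := congrFun h2 i
    have e2 := congrFun h2 (i + 1)
    rcases hk with hk | hk <;> rcases hl with hl | hl <;>
      rw [hk, hl] at e1 e2 <;>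
      simp only [map_sub, map_neg, hco, Pi.sub_apply, Pi.neg_apply, Pi.single_eq_same,
        Pi.single_eq_of_ne (hi1 i), Pi.single_eq_of_ne (hi1 i).symm] at e1 e2
    · by_cases hki : i = k
      · subst hki
        exact Or.inl hk
      · rw [Pi.single_eq_of_ne hki] at e1
        by_cases hli : i = l
        · subst hli
          rw [Pi.single_eq_same] at e1
          norm_num at e1
        · rw [Pi.single_eq_of_ne hli] at e1
          norm_num at e1
    · by_cases hki : i = k
      · subst hki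
        exact Or.inl hk
      · rw [Pi.single_eq_of_ne hki] at e1
        by_cases hki' : i + 1 = k
        · subst hki'
          rw [Pi.single_eq_same] at e2
          by_cases hli' : i + 1 = l
          · subst hli'
            rw [Pi.single_eq_same] at e2
            norm_num at e2
          · rw [Pi.single_eq_of_ne hli'] at e2
            norm_num at e2
        · rw [Pi.single_eq_of_ne hki'] at e2
          by_cases hli' : i + 1 = l
          · subst hli'
            rw [Pi.single_eq_same] at e2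
            norm_num at e2
          · rw [Pi.single_eq_of_ne hli'] at e2
            norm_num at e2
    · by_cases hki : i = k
      · subst hki
        rw [Pi.single_eq_same] at e1
        by_cases hli : i = l
        · subst hli
          rw [Pi.single_eq_same] at e1
          norm_num at e1
        · rw [Pi.single_eq_of_ne hli] at e1
          norm_num at e1
      · rw [Pi.single_eq_of_ne hki] at e1
        by_cases hli : i = l
        · subst hli
          rw [Pi.single_eq_same] at e1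
          norm_num at e1
        · rw [Pi.single_eq_of_ne hli] at e1
          norm_num at e1
    · by_cases hki : i = k
      · subst hki
        rw [Pi.single_eq_same] at e1
        by_cases hli : i = l
        · subst hli
          rw [Pi.single_eq_same] at e1
          norm_num at e1
        · rw [Pi.single_eq_of_ne hli] at e1
          norm_num at e1
      · rw [Pi.single_eq_of_ne hki] at e1
        by_cases hli : i = l
        · subst hli
          rw [Pi.single_eq_of_ne (hi1 i).symm] at e2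
          by_cases hki' : i + 1 = k
          · subst hki'
            exact Or.inr ⟨hk, hl⟩
          · rw [Pi.single_eq_of_ne hki'] at e2
            norm_num at e2
        · rw [Pi.single_eq_of_ne hli] at e1
          norm_num at e1
  rcases alt i with h1 | ⟨h1, h2⟩
  · exact h1
  · exfalso
    rcases alt (i + 1) with h3 | ⟨h3, h4⟩
    · rw [h2] at h3
      have e1 := congrFun (congrArg co h3) i
      simp only [map_neg, hco, Pi.neg_apply, Pi.single_eq_same, Pi.single_eq_of_ne (hi1 i)] at e1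
      norm_num at e1
    · rw [h2] at h3
      have e1 := congrFun (congrArg co h3) i
      have h5 : i ≠ i + 1 + 1 := by
        intro h6
        apply htwo
        have h7 : i + 2 = i + 0 := by
          rw [add_zero]
          conv_rhs => rw [h6]
          ring
        exact add_left_cancel h7
      simp only [map_neg, hco, Pi.neg_apply, Pi.single_eq_same, Pi.single_eq_of_ne h5] at e1
      norm_num at e1

include hc hst hcompl hhalf hp5 hSQ hgS hcov hco hW in
theorem pf_sum (h3 : S_line) (M : Subgroup G) [hMn : M.Normal] [Fintype M] (hM : ¬ M ≤ kerP Q)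
    {F : G → ℚ} (hF : F ∈ VV Q) : ∑ h : M, rtr h.1 F ∈ QQ c := by
  classical
  let W : Submodule ℚ (G → ℚ) :=
    { carrier := {F | F ∈ VV Q ∧ ∀ h ∈ M, rtr h F = F}
      zero_mem' := ⟨Submodule.zero_mem _, fun h _ => map_zero _⟩
      add_mem' := fun {a b} ha hb => ⟨Submodule.add_mem _ ha.1 hb.1, fun h hh => by
        rw [map_add, ha.2 h hh, hb.2 h hh]⟩
      smul_mem' := fun r a ha => ⟨Submodule.smul_mem _ _ ha.1, fun h hh => by
        rw [map_smul, ha.2 h hh]⟩ }
  have hWG : ∀ k, ∀ F ∈ W, rtr k F ∈ W := by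
    rintro k F ⟨hF1, hF2⟩
    refine ⟨rtr_mem_VV hst k hF1, fun h hh => ?_⟩
    rw [rtr_rtr, show h * k = k * (k⁻¹ * h * k) by group, ← rtr_rtr]
    have h1 := hMn.conj_mem h hh k⁻¹
    rw [inv_inv] at h1
    rw [hF2 _ h1]
  have hFW : ∑ h : M, rtr h.1 F ∈ W := by
    refine ⟨Submodule.sum_mem _ fun h _ => rtr_mem_VV hst _ hF, fun k hk => ?_⟩
    rw [map_sum]
    refine Fintype.sum_equiv (Equiv.mulLeft (⟨k, hk⟩ : M)) _ _ fun h => ?_
    rw [rtr_rtr]
    rfl
  rcases hW W (hWG g) (fun F hF => VV_le_span hcov F hF.1) with h1 | h1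
  · exfalso
    apply hM
    intro h hh T hT
    have h2 : ∀ i, rtr h (eps (S i)) = eps (S i) := fun i =>
      fixed_of_diff hst hp5 hSQ hgS hcov hco h
        (fun i => (step_mem hgS W (hWG g) h1 i).2 h hh) i
    have h4 : ∀ i, tr h (S i) = S i := by
      intro i
      apply eps_inj
      rw [← rtr_eps, h2]
    obtain ⟨i, rfl | rfl⟩ := hcov T hT
    · exact h4 i
    · rw [tr_compl, h4]
  · obtain ⟨r, hr⟩ := h1 _ hFW
    by_cases hr0 : r = 0
    · rw [hr, hr0, zero_smul]
      exact Submodule.zero_mem _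
    · have hSW : ∑ i, eps (S i) ∈ W := by
        have h2 := W.smul_mem r⁻¹ hFW
        rwa [hr, smul_smul, inv_mul_cancel₀ hr0, one_smul] at h2
      rw [hr]
      refine Submodule.smul_mem _ _ (h3 G c hc _ (sum_odd hhalf hSQ) fun k => ?_)
      exact h1 _ (hWG k _ hSW)

include hc in
theorem rtr_sq_QQ {F : G → ℚ} (hF : F ∈ QQ c) (h : G) : rtr h (rtr h F) = F := by
  refine Submodule.span_induction (p := fun F _ => rtr h (rtr h F) = F) ?_ ?_ ?_ ?_ hF
  · rintro _ ⟨N, hN, rfl⟩
    have h1 := rtr_chi hc hN h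
    change rtr h (rtr h (chi N)) = chi N
    rw [h1, map_smul, h1, smul_smul]
    rcases eps_cases {σ | σ ∈ N} h with h2 | h2 <;> rw [show chi N h = _ from h2] <;> norm_num
  · rw [map_zero, map_zero]
  · intro x y _ _ hx hy
    rw [map_add, map_add, hx, hy]
  · intro a x _ hx
    rw [map_smul, map_smul, hx]

include hc hst hcompl hhalf hp5 hSQ hgS hne hcov hco hW in
theorem pf_good (hcard : Q.ncard = 2 * p) {a : Set G → ℚ} (ha : ∀ U, U ∉ Q → a U = 0)
    (ha1 : ∀ U, a Uᶜ = -a U) (hF : FF a ∈ QQ c) (k : ZMod p) (hx : a (S k) ≠ 0) :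
    ∃ N, GoodF c Q a (S k) N := by
  classical
  have hone : (1 : ZMod p) ≠ 0 := by
    have := zmod_ne hp5 (n := 1) (by norm_num) (by norm_num)
    simpa using this
  have htwo : (2 : ZMod p) ≠ 0 := by
    have := zmod_ne hp5 (n := 2) (by norm_num) (by norm_num)
    simpa using this
  have hthree : (3 : ZMod p) ≠ 0 := by
    have := zmod_ne hp5 (n := 3) (by norm_num) (by norm_num)
    simpa using this
  obtain ⟨Sg, hSg⟩ : ∃ Sg : G → ℚ, Sg = ∑ i, eps (S i) := ⟨_, rfl⟩
  have hcoS : ∀ i, co Sg i = 1 := by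
    intro i
    rw [hSg, map_sum, Finset.sum_apply, Finset.sum_congr rfl (fun k _ => by rw [hco k]),
      Finset.sum_pi_single]
    simp
  have hSg0 : Sg ≠ 0 := by
    intro h
    have h1 := hcoS 0
    rw [h, map_zero] at h1
    exact zero_ne_one h1
  have hodd : ∀ σ, Sg (c * σ) = -Sg σ := by
    rw [hSg]
    exact sum_odd hhalf hSQ
  let W : Submodule ℚ (G → ℚ) := VV Q ⊓ QQ c
  have hWG : ∀ k, ∀ F ∈ W, rtr k F ∈ W := fun k F hF =>
    ⟨rtr_mem_VV hst k hF.1, rtr_mem_QQ hc k hF.2⟩
  have hmul : ∀ F ∈ W, ∃ r : ℚ, F = r • Sg := by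
    rcases hW W (hWG g) (fun F hF => VV_le_span hcov F hF.1) with h1 | h1
    · exfalso
      have h2 := rtr_sq_QQ hc h1.2 g
      rw [map_sub, rtr_eps, rtr_eps, hgS, hgS, map_sub, rtr_eps, rtr_eps, hgS, hgS] at h2
      have e1 := congrFun (congrArg co h2) 0
      have e2 : (0 : ZMod p) ≠ 0 + 1 + 1 := by
        intro h
        apply htwo
        rw [h]
        ring
      have e3 : (0 : ZMod p) ≠ 1 + 1 + 1 := by
        intro h
        apply hthree
        rw [h]
        ring
      simp only [map_sub, hco, Pi.sub_apply, Pi.single_eq_of_ne e2, Pi.single_eq_of_ne e3,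
        Pi.single_eq_same, Pi.single_eq_of_ne hone.symm] at e1
      norm_num at e1
    · rw [hSg]
      exact h1
  obtain ⟨r, hr⟩ := hmul (FF a) ⟨FF_mem_VV ha, hF⟩
  have hSinj : Function.Injective S := by
    intro i j hij
    by_contra h
    exact (hne i j h).1 hij
  have hSc : ∀ i j, S i ≠ (S j)ᶜ := by
    intro i j
    by_cases h : i = j
    · rw [h]
      exact ne_compl _
    · exact (hne i j h).2
  have hFF : FF a = ∑ i, (2 * a (S i)) • eps (S i) := by
    funext σ
    have h2 := sum_rep S hSinj hSc (fun U => a U * eps U σ) (fun U hU => by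
      have hUQ : U ∈ Q := by
        by_contra h
        exact hU (by rw [ha U h, zero_mul])
      exact hcov U hUQ)
    have h3 : FF a σ = ∑ U : Set G, a U * eps U σ := rfl
    rw [h3, h2, Finset.sum_apply]
    refine Finset.sum_congr rfl fun i _ => ?_
    rw [ha1, eps_compl, Pi.smul_apply, smul_eq_mul]
    ring
  have haS : ∀ i, 2 * a (S i) = r := by
    intro i
    have h1 := congrFun (congrArg co (hFF.symm.trans hr)) i
    rw [map_sum, Finset.sum_apply, map_smul, Pi.smul_apply, hcoS, smul_eq_mul, mul_one] at h1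
    rw [← h1, Finset.sum_eq_single i]
    · rw [map_smul, hco, Pi.smul_apply, Pi.single_eq_same, smul_eq_mul, mul_one]
    · intro j _ hj
      rw [map_smul, hco, Pi.smul_apply, Pi.single_eq_of_ne hj.symm, smul_zero]
    · intro h
      exact absurd (Finset.mem_univ i) h
  have haS' : ∀ i j, a (S i) = a (S j) := by
    intro i j
    have h1 := haS i
    have h2 := haS j
    linarith
  have hr0 : r ≠ 0 := by
    rw [← haS k]
    exact mul_ne_zero two_ne_zero hx
  have hSgW : Sg ∈ W := by
    have h2 := W.smul_mem r⁻¹ (⟨FF_mem_VV ha, hF⟩ : FF a ∈ W)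
    rwa [hr, smul_smul, inv_mul_cancel₀ hr0, one_smul] at h2
  have hpm : ∀ h, rtr h Sg = Sg ∨ rtr h Sg = -Sg := by
    intro h
    obtain ⟨ρ, hρ⟩ := hmul _ (hWG h _ hSgW)
    have h1 := dot_rtr h Sg Sg
    rw [hρ, dot_smul, dot_comm, dot_smul] at h1
    have h2 : dot Sg Sg ≠ 0 := fun h => hSg0 (dot_self h)
    have h3 : (ρ - 1) * (ρ + 1) = 0 := by
      have h4 : ((ρ - 1) * (ρ + 1)) * dot Sg Sg = 0 := by linear_combination h1
      exact (mul_eq_zero.1 h4).resolve_right h2
    rcases mul_eq_zero.1 h3 with h4 | h4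
    · left
      rw [hρ, show ρ = 1 by linarith, one_smul]
    · right
      rw [hρ, show ρ = -1 by linarith, neg_one_smul]
  let N : Subgroup G :=
    { carrier := {h | rtr h Sg = Sg}
      one_mem' := rtr_one Sg
      mul_mem' := fun {h h'} hh hh' => by
        change rtr (h * h') Sg = Sg
        rw [← rtr_rtr, show rtr h' Sg = Sg from hh', show rtr h Sg = Sg from hh]
      inv_mem' := fun {h} hh => by
        change rtr h⁻¹ Sg = Sg
        have h1 : rtr h Sg = Sg := hh
        conv_lhs => rw [← h1]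
        rw [rtr_rtr, inv_mul_cancel, rtr_one] }
  have hNmem : ∀ h, h ∈ N ↔ rtr h Sg = Sg := fun h => Iff.rfl
  have hcSg : rtr c Sg = -Sg := by
    funext σ
    rw [rtr_apply, ← hc σ, hodd]
    rfl
  have hN : Imag c N := by
    constructor
    · intro h
      rw [hNmem, hcSg] at h
      apply hSg0
      funext σ
      have h1 := congrFun h σ
      rw [Pi.neg_apply] at h1
      rw [Pi.zero_apply]
      linarith
    · intro τ hτ
      rw [hNmem] at hτ ⊢
      rw [← rtr_rtr, (hpm τ).resolve_left hτ, map_neg, hcSg, neg_neg]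
  -- permutation
  let ℓ : (G → ℚ) →ₗ[ℚ] ℚ := (∑ i : ZMod p, LinearMap.proj i) ∘ₗ co
  have hℓ : ∀ i, ℓ (eps (S i)) = 1 := by
    intro i
    change (∑ j : ZMod p, LinearMap.proj j : (ZMod p → ℚ) →ₗ[ℚ] ℚ) (co (eps (S i))) = 1
    rw [hco, LinearMap.sum_apply]
    simp
  have hperm : ∀ h ∈ N, ∀ i, ∃ j, tr h (S i) = S j := by
    intro h hh i
    have h1 : ∑ j, ℓ (rtr h (eps (S j))) = ∑ j : ZMod p, ℓ (eps (S j)) := by
      rw [← map_sum, ← map_sum, ← map_sum, ← hSg, (hNmem h).1 hh]
    have h2 : ∀ j ∈ Finset.univ, ℓ (rtr h (eps (S j))) ≤ ℓ (eps (S j)) := by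
      intro j _
      rw [hℓ]
      obtain ⟨l, hl | hl⟩ := signed hst hSQ hcov h j
      · rw [hl, hℓ]
      · rw [hl, map_neg, hℓ]
        norm_num
    have h3 := (Finset.sum_eq_sum_iff_of_le h2).1 h1 i (Finset.mem_univ _)
    obtain ⟨l, hl | hl⟩ := signed hst hSQ hcov h i
    · exact ⟨l, eps_inj (by rw [← rtr_eps, hl])⟩
    · rw [hl, map_neg, hℓ, hℓ] at h3
      norm_num at h3
  have hgN : g ∈ N := by
    rw [hNmem, hSg, map_sum]
    refine Fintype.sum_equiv (Equiv.addRight (1 : ZMod p)) _ _ fun i => ?_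
    rw [rtr_eps, hgS]
    rfl
  have hgpow : ∀ (n : ℕ) (i : ZMod p), tr (g ^ n) (S i) = S (i + n) := by
    intro n
    induction n with
    | zero => intro i; rw [pow_zero, tr_one, Nat.cast_zero, add_zero]
    | succ n ih =>
      intro i
      rw [pow_succ', ← tr_tr, ih, hgS]
      push_cast
      rw [add_assoc]
  have horb : ∀ i, ∃ τ ∈ N, tr τ (S k) = S i := by
    intro i
    refine ⟨g ^ (i - k).val, N.pow_mem hgN _, ?_⟩
    rw [hgpow, ZMod.natCast_zmod_val]
    congr 1
    ring
  let e : ZMod p ≃ OrbT N (S k) := Equiv.ofBijective (fun i => ⟨S i, horb i⟩) (by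
    constructor
    · intro i j hij
      exact hSinj (congrArg Subtype.val hij)
    · rintro ⟨T, τ, hτ, rfl⟩
      obtain ⟨j, hj⟩ := hperm τ hτ k
      exact ⟨j, Subtype.ext hj.symm⟩)
  have hpsum : ∀ σ, psum N (S k) σ = Sg σ := by
    intro σ
    unfold psum
    rw [hSg, Finset.sum_apply]
    exact (Fintype.sum_equiv e _ _ fun i => rfl).symm
  have hSgN : Sg = Sg 1 • chi N := eq_smul_eps hN (fun τ hτ => hτ) hodd
  have hSg1 : Sg 1 ≠ 0 := by
    intro h
    rw [h, zero_smul] at hSgN
    exact hSg0 hSgN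
  refine ⟨N, hN, hhalf _ (hSQ k), ?_, ?_, ?_, ?_, ?_⟩
  · intro τ hτ
    by_contra hcon
    have h1 := hN.2 τ hcon
    obtain ⟨j, hj⟩ := hperm _ h1 k
    rw [← tr_tr, show tr τ (S k) = S k from hτ, tr_c hc (hhalf _ (hSQ k))] at hj
    exact hSc j k hj.symm
  · intro τ hτ U
    by_cases hU : U ∈ Q
    · obtain ⟨i, rfl | rfl⟩ := hcov U hU
      · obtain ⟨j, hj⟩ := hperm τ hτ i
        rw [hj, haS' j i]
      · obtain ⟨j, hj⟩ := hperm τ hτ i
        rw [tr_compl, hj, ha1, ha1, haS' j i]
    · rw [ha U hU, ha]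
      intro h
      apply hU
      have h1 := hst τ⁻¹ _ h
      rwa [tr_inv_tr] at h1
  · right
    right
    refine ⟨by omega, ?_⟩
    rw [← Nat.card_congr e, Nat.card_zmod, hcard]
  · convert hSg1 using 1
    exact hpsum 1
  · rw [hr]
    have h1 : psum N (S k) 1 = Sg 1 := hpsum 1
    rw [haS k]
    rw [h1, mul_smul]
    congr 1

end

/-- JOB C5 PFINE. -/
theorem pfine (h1 : S_prep) (h2 : S_pind) (h3 : S_line) : S_pfine := by
  classical
  intro G _ _ c hc Q hst htr hcompl hhalf p hp hp5 hcard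
  have hpf : Fact p.Prime := ⟨hp⟩
  obtain ⟨g, S, hSQ, hgS, hne, hcov⟩ := h1 G c hc Q hst htr hcompl hhalf p (by omega) hcard
  obtain ⟨hli, hW⟩ := h2 G p (by omega) g S hgS hne
  obtain ⟨co, hco⟩ := exists_co hli
  refine ⟨hst, htr, hcompl, hhalf, ?_, ?_⟩
  · intro M _ _ hM F hF
    exact pf_sum hc hst hcompl hhalf hp5 hSQ hgS hcov hco hW h3 M hM hF
  · intro a ha ha1 hF x hx
    have hxQ : x ∈ Q := by
      by_contra h
      exact hx (ha x h)
    obtain ⟨k, rfl | rfl⟩ := hcov x hxQ
    · exact pf_good hc hst hcompl hhalf hp5 hSQ hgS hne hcov hco hW hcard ha ha1 hF k hx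
    · have hgS' : ∀ i, tr g (S i)ᶜ = (S (i + 1))ᶜ := fun i => by rw [tr_compl, hgS]
      have hne' : ∀ i k, i ≠ k → (S i)ᶜ ≠ (S k)ᶜ ∧ (S i)ᶜ ≠ (S k)ᶜᶜ := by
        intro i j hij
        refine ⟨fun h => (hne i j hij).1 (compl_injective h), fun h => (hne i j hij).2 ?_⟩
        rw [← compl_compl (S i), h, compl_compl]
      obtain ⟨hli', hW'⟩ := h2 G p (by omega) g (fun i => (S i)ᶜ) hgS' hne'
      obtain ⟨co', hco'⟩ := exists_co hli'
      refine pf_good (S := fun i => (S i)ᶜ) hc hst hcompl hhalf hp5 (fun i => hcompl _ (hSQ i))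
        hgS' hne' ?_ hco' hW' hcard ha ha1 hF k hx
      intro T hT
      obtain ⟨i, hi | hi⟩ := hcov T hT
      · exact ⟨i, Or.inr (by rw [hi, compl_compl])⟩
      · exact ⟨i, Or.inl hi⟩

end Pool.Agent.Q210.D3H
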